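import Mathlib

/-!
# The number of irreducible components of a numerical semigroup is unbounded

For `N ≥ 0` put `x_i = 4 * 2 ^ N + 2 ^ i` (`i ≤ N`) and let `S` consist of `0` and of all integers
`n ≥ 3 * 2 ^ N` different from `x_0, …, x_N`. This is a numerical semigroup. Let `T` be an
irreducible numerical semigroup containing `S` and missing some `x_i`. The Frobenius number `F` of
`T` is some `x_k`. If `i ≠ k` then `i < k`, and `F - x_i ∈ T` as `T` is irreducible. Now
`F = 2 (F - x_i) + (2 x_i - F)`, and `2 x_i - F = 4 * 2 ^ N + 2 ^ (i + 1) - 2 ^ k` lies in `S`, so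
that `F ∈ T`, a contradiction. So `T` misses exactly one of the `x_i`, and at least `N + 1`
irreducible numerical semigroups are needed.
-/

set_option autoImplicit false

namespace Pool.Agent.Results.MP_b58a5b_nt.NoUniformBound

/-- A numerical semigroup: a set of non-negative integers that contains `0`, is closed under
addition, and has finite complement. -/
def IsNumericalSemigroup (S : Set ℕ) : Prop :=
  0 ∈ S ∧ (∀ a ∈ S, ∀ b ∈ S, a + b ∈ S) ∧ Sᶜ.Finite

/-- A numerical semigroup is irreducible if it is not the intersection of two numerical semigroups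
properly containing it. -/
def IsIrreducible (S : Set ℕ) : Prop :=
  IsNumericalSemigroup S ∧ ¬ ∃ S₁ S₂ : Set ℕ, IsNumericalSemigroup S₁ ∧ IsNumericalSemigroup S₂ ∧
    S ⊂ S₁ ∧ S ⊂ S₂ ∧ S = S₁ ∩ S₂

lemma insert_semigroup {T : Set ℕ} (hT : IsNumericalSemigroup T) {h : ℕ}
    (h1 : h + h ∈ insert h T) (h2 : ∀ t ∈ T, 0 < t → h + t ∈ insert h T) :
    IsNumericalSemigroup (insert h T) := by
  obtain ⟨h0, hadd, hfin⟩ := hT
  refine ⟨Or.inr h0, ?_, hfin.subset ?_⟩
  · rintro a (rfl | ha) b (rfl | hb)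
    · exact h1
    · rcases Nat.eq_zero_or_pos b with rfl | hb0
      · exact Or.inl rfl
      · exact h2 b hb hb0
    · rcases Nat.eq_zero_or_pos a with rfl | ha0
      · rw [zero_add]; exact Or.inl rfl
      · rw [add_comm]; exact h2 a ha ha0
    · exact Or.inr (hadd a ha b hb)
  · intro x hx hxT
    exact hx (Or.inr hxT)

/-- In an irreducible numerical semigroup with Frobenius number `F` a gap `x < F` with `F < 2 x`
satisfies `F - x ∈ T`. -/
lemma sub_mem {T : Set ℕ} (hT : IsIrreducible T) {F : ℕ} (hF : F ∉ T) (hF' : ∀ n, F < n → n ∈ T)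
    {x : ℕ} (hx : x ∉ T) (hxF : x < F) (hx2 : F < 2 * x) : F - x ∈ T := by
  classical
  by_contra hcon
  obtain ⟨⟨h0, hadd, hfin⟩, hirr⟩ := hT
  set G : Set ℕ := {y | y ∉ T ∧ y < F ∧ F < 2 * y ∧ F - y ∉ T} with hG
  have hGfin : G.Finite := (Set.finite_Iio F).subset fun y hy => hy.2.1
  have hGne : G.Nonempty := ⟨x, hx, hxF, hx2, hcon⟩
  obtain ⟨h, hh, hmax⟩ := Set.exists_max_image G id hGfin hGne
  obtain ⟨hhT, hhF, hh2, hhc⟩ := hh
  apply hirr
  refine ⟨insert h T, insert F T, ?_, ?_, ?_, ?_, ?_⟩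
  · apply insert_semigroup ⟨h0, hadd, hfin⟩
    · exact Or.inr (hF' _ (by omega))
    · intro t ht ht0
      right
      by_contra hy
      rcases lt_trichotomy (h + t) F with h1 | h1 | h1
      · have : h + t ∈ G := by
          refine ⟨hy, h1, by omega, fun h3 => hhc ?_⟩
          have := hadd _ h3 _ ht
          rwa [show F - (h + t) + t = F - h by omega] at this
        have := hmax _ this
        simp only [id] at this
        omega
      · exact hhc (by rwa [show F - h = t by omega])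
      · exact hy (hF' _ h1)
  · apply insert_semigroup ⟨h0, hadd, hfin⟩
    · exact Or.inr (hF' _ (by omega))
    · intro t _ ht0
      exact Or.inr (hF' _ (by omega))
  · exact Set.ssubset_insert hhT
  · exact Set.ssubset_insert hF
  · ext y
    constructor
    · intro hy
      exact ⟨Or.inr hy, Or.inr hy⟩
    · rintro ⟨rfl | h1, h2 | h2⟩
      · omega
      · exact h2
      · exact h1
      · exact h1

/-- the semigroup `S` -/
def S (N : ℕ) : Set ℕ := {n | n = 0 ∨ (3 * 2 ^ N ≤ n ∧ ∀ i ≤ N, n ≠ 4 * 2 ^ N + 2 ^ i)}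

lemma S_semigroup (N : ℕ) : IsNumericalSemigroup (S N) := by
  have hp : ∀ i ≤ N, 2 ^ i ≤ 2 ^ N := fun i hi => Nat.pow_le_pow_right (by norm_num) hi
  have h1 : 1 ≤ 2 ^ N := Nat.one_le_two_pow
  refine ⟨Or.inl rfl, ?_, ?_⟩
  · rintro a (rfl | ⟨ha, ha'⟩) b (rfl | ⟨hb, hb'⟩)
    · exact Or.inl rfl
    · right; rw [zero_add]; exact ⟨hb, hb'⟩
    · right; exact ⟨ha, ha'⟩
    · right
      refine ⟨by omega, fun i hi h => ?_⟩
      have := hp i hi
      omega
  · refine (Set.finite_Iio (5 * 2 ^ N + 1)).subset fun x hx => ?_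
    rw [Set.mem_Iio]
    by_contra hcon
    apply hx
    right
    refine ⟨by omega, fun i hi h => ?_⟩
    have := hp i hi
    omega

lemma x_notMem {N i : ℕ} (hi : i ≤ N) : 4 * 2 ^ N + 2 ^ i ∉ S N := by
  rintro (h | ⟨_, h⟩)
  · have h1 : 1 ≤ 2 ^ N := Nat.one_le_two_pow
    have h2 : 1 ≤ 2 ^ i := Nat.one_le_two_pow
    omega
  · exact h i hi rfl

/-- an irreducible numerical semigroup containing `S` misses at most one of the `x_i` -/
lemma key {N : ℕ} {T : Set ℕ} (hT : IsIrreducible T) (hST : S N ⊆ T) {i j : ℕ} (hi : i ≤ N)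
    (hj : j ≤ N) (hiT : 4 * 2 ^ N + 2 ^ i ∉ T) (hjT : 4 * 2 ^ N + 2 ^ j ∉ T) : i = j := by
  have h1 : 1 ≤ 2 ^ N := Nat.one_le_two_pow
  obtain ⟨F, hF, hFmax⟩ := Set.exists_max_image Tᶜ id hT.1.2.2 ⟨_, hiT⟩
  have hF' : ∀ n, F < n → n ∈ T := by
    intro n hn
    by_contra hcon
    have := hFmax n hcon
    simp only [id] at this
    omega
  obtain ⟨k, hk, hFk⟩ : ∃ k ≤ N, F = 4 * 2 ^ N + 2 ^ k := by
    by_contra hcon
    push Not at hcon
    apply hF
    apply hST
    right
    have h2 := hFmax _ hiT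
    simp only [id] at h2
    have h3 : 1 ≤ 2 ^ i := Nat.one_le_two_pow
    exact ⟨by omega, hcon⟩
  have main : ∀ l ≤ N, 4 * 2 ^ N + 2 ^ l ∉ T → l = k := by
    intro l hl hlT
    by_contra hlk
    have h2 := hFmax _ hlT
    simp only [id] at h2
    have h3 : 2 ^ l ≤ 2 ^ k := by omega
    have h4 : l < k := lt_of_le_of_ne ((Nat.pow_le_pow_iff_right (by norm_num)).1 h3) hlk
    have h5 : 2 ^ (l + 1) ≤ 2 ^ k := Nat.pow_le_pow_right (by norm_num) h4
    have h6 : 2 ^ k ≤ 2 ^ N := Nat.pow_le_pow_right (by norm_num) hk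
    have h7 : 1 ≤ 2 ^ l := Nat.one_le_two_pow
    have h8 : 2 ^ (l + 1) = 2 * 2 ^ l := by ring
    have h9 : F - (4 * 2 ^ N + 2 ^ l) ∈ T := sub_mem hT hF hF' hlT (by omega) (by omega)
    have h10 : 2 * (4 * 2 ^ N + 2 ^ l) - F ∈ T := by
      apply hST
      right
      refine ⟨by omega, fun m hm h => ?_⟩
      have : 1 ≤ 2 ^ m := Nat.one_le_two_pow
      omega
    have h11 := hT.1.2.1 _ (hT.1.2.1 _ h9 _ h9) _ h10
    apply hF
    rwa [show F - (4 * 2 ^ N + 2 ^ l) + (F - (4 * 2 ^ N + 2 ^ l)) +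
      (2 * (4 * 2 ^ N + 2 ^ l) - F) = F by omega] at h11
  rw [main i hi hiT, main j hj hjT]

/-- For every `N` there is a numerical semigroup `S` such that in every expression of `S` as an
intersection of `k` irreducible numerical semigroups one has `k > N`. -/
theorem result : ∀ N : ℕ, ∃ S : Set ℕ, IsNumericalSemigroup S ∧
    ∀ (k : ℕ) (T : Fin k → Set ℕ), (∀ i, IsIrreducible (T i)) → S = ⋂ i, T i → N < k := by
  intro N
  refine ⟨S N, S_semigroup N, fun k T hT hS => ?_⟩
  have h1 : ∀ j : Fin (N + 1), ∃ i : Fin k, 4 * 2 ^ N + 2 ^ (j : ℕ) ∉ T i := by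
    intro j
    have := x_notMem (N := N) (i := j) (by omega)
    rw [hS, Set.mem_iInter] at this
    push Not at this
    exact this
  choose f hf using h1
  have hinj : Function.Injective f := by
    intro a b hab
    have hb := hf b
    rw [← hab] at hb
    have hsub : S N ⊆ T (f a) := by
      rw [hS]
      exact Set.iInter_subset _ _
    exact Fin.ext (key (hT (f a)) hsub (by omega) (by omega) (hf a) hb)
  have := Fintype.card_le_of_injective f hinj
  simp only [Fintype.card_fin] at this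
  omega

end Pool.Agent.Results.MP_b58a5b_nt.NoUniformBound
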